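import Pool.Agent.K4H64.Pz.Bd
import Pool.Agent.K4H95.LQ.R1
import Pool.Agent.K4H95.LQ.R2
import Pool.Agent.K4H95.LQ.I1
import Pool.Agent.K4H95.LQ.I1b
import Pool.Agent.K4H95.LQ.I2
import Pool.Agent.K4H95.LQ.I3
import Pool.Agent.K4H95.LQ.P1
import Pool.Agent.K4H95.LQ.I4
import Pool.Agent.K4H95.LQ.PieceI6

/-!
# Positive central values for every choice of the values at all primes up to `(log X) / 1000`

Let `Y ≤ (log X) / 1000` and prescribe the value `χ(p)`, one of `0, 1, -1`, at EVERY prime `p ≤ Y`,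
and the parity, in an arbitrary way. We show that for all large `X`, uniformly in `Y` and in the
prescribed values, there are at least `X ^ 0.7` real primitive characters `χ` of conductor at
most `X` with these values and with `L(1/2, χ) > 0`. The order of `Y` is best possible up to
`log log X`: there are only `O(X)` real primitive characters of conductor at most `X`, and
`3 ^ π(Y)` choices of the values.

In particular no choice of the values at the primes up to `(log X) / 1000`, for instance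
`χ(p) = -1` for all of these primes, as for the characters for which `L(1, χ)` is smallest, forces
the central value to be zero or negative.

The proof uses the uniform asymptotic formula for the first moment over such a class
(`Pool.Agent.K4H95.LQ.tT`, written by helper95 and others for
`Results/MP_ea46f5_nt/UniformSplitting.lean`) and a pointwise bound for the central values.
-/

set_option autoImplicit false

namespace Pool.Agent.Results.MP_0016c7_nt.EveryLocalPattern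

/-- The real primitive characters `χ ≠ 1` of conductor at most `X` with `χ(-1) = s` and
`χ(p) = a p` for all primes `p ≤ Y`. -/
def prescribed (s : ℤ) (X Y : ℕ) (a : ℕ → ℤ) : Set (Σ N : ℕ, DirichletCharacter ℂ N) :=
  {χ | χ.1 ≠ 0 ∧ χ.1 ≤ X ∧ χ.2.IsPrimitive ∧ χ.2 ^ 2 = 1 ∧ χ.2 ≠ 1 ∧ χ.2 (-1) = (s : ℂ) ∧
    ∀ p : ℕ, p.Prime → p ≤ Y → χ.2 (p : ZMod χ.1) = (a p : ℂ)}

/-- `L(σ, χ)` is a positive real number. -/
def PositiveAt (σ : ℝ) (χ : Σ N : ℕ, DirichletCharacter ℂ N) : Prop :=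
  ∃ _ : NeZero χ.1, (DirichletCharacter.LFunction χ.2 (σ : ℂ)).im = 0 ∧
    0 < (DirichletCharacter.LFunction χ.2 (σ : ℂ)).re

open Pool.Agent.K4H95.LQ Pool.Agent.H306R2.RG

theorem positive_of {s : ℤ} {X Y : ℕ} {a : ℕ → ℤ} {χ : Σ N : ℕ, DirichletCharacter ℂ N}
    (h : χ ∈ Sub s X Y (fun p => (a p : ℝ))) (h0 : 0 < cen χ) :
    χ ∈ prescribed s X Y a ∩ {χ | PositiveAt (1 / 2) χ} := by
  obtain ⟨⟨⟨hN, h1, h2, h3⟩, hX, hs⟩, hp⟩ := h
  refine ⟨⟨hN, hX, h1, h2, h3, hs, fun p hp1 hpY => ?_⟩, ⟨hN⟩, ?_⟩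
  · have h4 := hp p (Finset.mem_filter.2 ⟨Finset.mem_Icc.2 ⟨hp1.one_lt.le, hpY⟩, hp1⟩)
    rw [h4]
    push_cast
    rfl
  · obtain ⟨N, χ⟩ := χ
    have : NeZero N := ⟨hN⟩
    obtain ⟨φ, d, hφ, hd, hsq, hN', hχ⟩ := LnkC.CLS N hN χ h1 h2 h3
    subst hN'
    have h7 := LnkC.CC5 φ hφ d hd hsq inferInstance χ h3 hχ (1 / 2) (by norm_num)
    have e1 : cen ⟨φ.r * d, χ⟩ = (χ.LFunction (1 / 2)).re := by
      unfold cen
      rw [dif_neg hN]
    have e2 : (((1 / 2 : ℝ)) : ℂ) = 1 / 2 := by push_cast; rfl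
    rw [e1] at h0
    show (χ.LFunction (((1 / 2 : ℝ)) : ℂ)).im = 0 ∧ 0 < (χ.LFunction (((1 / 2 : ℝ)) : ℂ)).re
    rw [e2]
    rw [e2] at h7
    exact ⟨by rw [h7, Complex.ofReal_im], h0⟩

theorem prescribed_finite (s : ℤ) (hs : s = 1 ∨ s = -1) (X Y : ℕ) (a : ℕ → ℤ) : (prescribed s X Y a).Finite := by
  refine (d s hs (fun _ => 0) (fun _ _ => 0) (fun _ _ _ _ _ _ _ _ _ _ => rfl) X).1.subset ?_
  rintro χ ⟨h0, h1, h2, h3, h4, h5, -⟩
  exact ⟨⟨h0, h2, h3, h4⟩, h1, h5⟩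

/-- **Positive central values in every class.** For all `X ≥ X₀`, all `Y ≤ (log X) / 1000`, all choices
of the parity and of the values `a p ∈ {0, 1, -1}` at the primes `p ≤ Y`, there are at least
`X ^ (7/10)` real primitive characters `χ ≠ 1` of conductor at most `X` with this parity, with
`χ(p) = a p` for all primes `p ≤ Y`, and with `L(1/2, χ) > 0`. -/
theorem result : ∃ X₀ : ℝ, ∀ (s : ℤ) (X Y : ℕ) (a : ℕ → ℤ), (s = 1 ∨ s = -1) →
    (∀ p, a p = 0 ∨ a p = 1 ∨ a p = -1) → X₀ ≤ X → (Y : ℝ) ≤ Real.log X / 1000 →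
    (prescribed s X Y a).Finite ∧
    (X : ℝ) ^ (7 / 10 : ℝ) ≤ ((prescribed s X Y a ∩ {χ | PositiveAt (1 / 2) χ}).ncard : ℝ) := by
  have stT : StT := tT i1 i1b i2 i3 i4 i6 p1 p2s (r2 r1 p)
  obtain ⟨K, hK⟩ := Pool.Agent.K4H64.Pz.pos_count stT p2s
  refine ⟨max K (Real.exp 2000), fun s X Y a hs ha hX hY => ?_⟩
  have hfin := prescribed_finite s hs X Y a
  refine ⟨hfin, ?_⟩
  have hPat : Pat (fun p => (a p : ℝ)) := by
    intro p
    rcases ha p with h | h | h <;> simp [h]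
  have h2000 : 2000 ≤ Real.log X := by
    rw [Real.le_log_iff_exp_le]
    · exact (le_max_right _ _).trans hX
    · exact lt_of_lt_of_le (Real.exp_pos _) ((le_max_right _ _).trans hX)
  obtain ⟨Z, hZY, hZ2, hZX⟩ : ∃ Z : ℕ, Y ≤ Z ∧ 2 ≤ Z ∧ (Z : ℝ) ≤ Real.log X / 1000 := by
    refine ⟨max Y 2, le_max_left _ _, le_max_right _ _, ?_⟩
    rw [Nat.cast_max]
    refine max_le hY ?_
    push_cast
    linarith
  have h1 := hK s X Z (fun p => (a p : ℝ)) hs hPat ((le_max_left _ _).trans hX) hZ2 hZX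
  refine h1.trans ?_
  have h2 : {χ | χ ∈ Sub s X Z (fun p => (a p : ℝ)) ∧ 0 < cen χ} ⊆
      prescribed s X Y a ∩ {χ | PositiveAt (1 / 2) χ} := by
    rintro χ ⟨h3, h4⟩
    obtain ⟨⟨g1, g2, g3, g4, g5, g6, g7⟩, g8⟩ := positive_of h3 h4
    exact ⟨⟨g1, g2, g3, g4, g5, g6, fun p hp hpY => g7 p hp (hpY.trans hZY)⟩, g8⟩
  exact_mod_cast Set.ncard_le_ncard h2 (hfin.subset Set.inter_subset_left)

end Pool.Agent.Results.MP_0016c7_nt.EveryLocalPattern
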